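import Pool.Agent.H592.TD.Stm

/-!
# TD project (helper592), part TD5: the main term of a box
-/

set_option autoImplicit false

open Finset Filter Topology

namespace Pool.Agent.H618.TD

open Pool.Agent.H329R2.AD (dk ram Pr SS)
open Pool.Agent.H592.TD

/-- the number of divisors is at most `2 √n` -/
theorem tau_le (n : ℕ) : (n.divisors.card : ℝ) ≤ 2 * Real.sqrt n := by
  classical
  have hA : (n.divisors.filter (fun d => d ≤ Nat.sqrt n)).card ≤ Nat.sqrt n := by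
    have h1 : n.divisors.filter (fun d => d ≤ Nat.sqrt n) ⊆ Icc 1 (Nat.sqrt n) := by
      intro d hd
      rw [mem_filter] at hd
      exact mem_Icc.2 ⟨Nat.pos_of_mem_divisors hd.1, hd.2⟩
    exact (card_le_card h1).trans (by rw [Nat.card_Icc]; omega)
  have hB : (n.divisors.filter (fun d => ¬ d ≤ Nat.sqrt n)).card ≤ Nat.sqrt n := by
    have h1 : (n.divisors.filter (fun d => ¬ d ≤ Nat.sqrt n)).card ≤ (Icc 1 (Nat.sqrt n)).card := by
      refine card_le_card_of_injOn (fun d => n / d) ?_ ?_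
      · intro d hd
        rw [Finset.mem_coe, mem_filter] at hd
        have hd0 := Nat.pos_of_mem_divisors hd.1
        have hdn := Nat.divisor_le hd.1
        rw [Finset.mem_coe, mem_Icc]
        refine ⟨Nat.div_pos hdn hd0, ?_⟩
        have h2 : n < (Nat.sqrt n + 1) * (Nat.sqrt n + 1) := Nat.lt_succ_sqrt n
        have h3 : n < (Nat.sqrt n + 1) * d :=
          h2.trans_le (Nat.mul_le_mul_left _ (by omega))
        have h4 : n / d < Nat.sqrt n + 1 := (Nat.div_lt_iff_lt_mul hd0).2 h3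
        exact Nat.lt_succ_iff.1 h4
      · intro d hd d' hd' h
        rw [Finset.mem_coe, mem_filter, Nat.mem_divisors] at hd hd'
        have h2 : n / d = n / d' := h
        rw [← Nat.div_div_self hd.1.1 hd.1.2, h2, Nat.div_div_self hd'.1.1 hd.1.2]
    exact h1.trans (by rw [Nat.card_Icc]; omega)
  have h1 : n.divisors.card ≤ 2 * Nat.sqrt n := by
    rw [← card_filter_add_card_filter_not (s := n.divisors) (fun d => d ≤ Nat.sqrt n)]
    omega
  have h2 : (n.divisors.card : ℝ) ≤ 2 * (Nat.sqrt n : ℝ) := by exact_mod_cast h1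
  have h3 := Real.nat_sqrt_le_real_sqrt (a := n)
  linarith

/-- the dominating series -/
theorem tau_summable : Summable (fun e : ℕ =>
    (((e + 1).divisors.card : ℝ) / ((e + 1 : ℕ) : ℝ)) * (((e + 1).divisors.card : ℝ) / ((e + 1 : ℕ) : ℝ))) := by
  have hz : LSeriesSummable (fun n => ((ArithmeticFunction.zeta : ArithmeticFunction ℂ) n))
      (((3 / 2 : ℝ)) : ℂ) := by
    have h1 := (ArithmeticFunction.LSeriesSummable_zeta_iff (s := (((3 / 2 : ℝ)) : ℂ))).2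
      (by rw [Complex.ofReal_re]; norm_num)
    exact h1
  have h2 := (ArithmeticFunction.LSeriesSummable_mul hz hz).norm
  have h3 : Summable (fun n : ℕ => if n = 0 then (0 : ℝ) else
      (n.divisors.card : ℝ) / (n : ℝ) ^ (3 / 2 : ℝ)) := by
    refine h2.congr fun n => ?_
    rw [LSeries.norm_term_eq, Complex.ofReal_re]
    by_cases hn : n = 0
    · rw [if_pos hn, if_pos hn]
    · rw [if_neg hn, if_neg hn]
      have h4 : ((ArithmeticFunction.zeta : ArithmeticFunction ℂ) *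
          (ArithmeticFunction.zeta : ArithmeticFunction ℂ)) n = (n.divisors.card : ℂ) := by
        rw [ArithmeticFunction.coe_zeta_mul_apply, card_eq_sum_ones, Nat.cast_sum]
        refine sum_congr rfl fun i hi => ?_
        rw [ArithmeticFunction.natCoe_apply, ArithmeticFunction.zeta_apply_ne
          (Nat.pos_of_mem_divisors hi).ne']
      rw [h4, Complex.norm_natCast]
  have h5 := ((summable_nat_add_iff 1).2 h3).mul_left 2
  refine Summable.of_nonneg_of_le (fun e => by positivity) (fun e => ?_) h5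
  rw [if_neg (by omega)]
  have hx : (0 : ℝ) < ((e + 1 : ℕ) : ℝ) := by positivity
  set x : ℝ := ((e + 1 : ℕ) : ℝ) with hxd
  have h6 := tau_le (e + 1)
  rw [← hxd] at h6
  have h7 : x ^ (3 / 2 : ℝ) = x * Real.sqrt x := by
    rw [Real.sqrt_eq_rpow, show (3 / 2 : ℝ) = 1 + 1 / 2 by norm_num, Real.rpow_add hx,
      Real.rpow_one]
  have hs : 0 < Real.sqrt x := Real.sqrt_pos.2 hx
  have hss : Real.sqrt x * Real.sqrt x = x := Real.mul_self_sqrt hx.le
  have h8 : (((e + 1).divisors.card : ℝ) / x) ≤ 2 * Real.sqrt x / x := by gcongr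
  have h9 : 2 * Real.sqrt x / x = 2 / Real.sqrt x := by
    rw [div_eq_div_iff hx.ne' hs.ne']
    linear_combination 2 * hss
  rw [h9] at h8
  calc (((e + 1).divisors.card : ℝ) / x) * (((e + 1).divisors.card : ℝ) / x)
      ≤ (2 / Real.sqrt x) * (((e + 1).divisors.card : ℝ) / x) :=
        mul_le_mul_of_nonneg_right h8 (by positivity)
    _ = 2 * (((e + 1).divisors.card : ℝ) / x ^ (3 / 2 : ℝ)) := by
        rw [h7]
        field_simp

/-- Ramanujan's sum is bounded -/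
theorem ram_le (e h : ℕ) (hh : h ≠ 0) : |ram e h| ≤ ∑ d ∈ h.divisors, (d : ℝ) := by
  unfold ram
  refine (abs_sum_le_sum_abs _ _).trans ?_
  have h1 : ∀ d ∈ e.divisors.filter (fun d => d ∣ h),
      |((ArithmeticFunction.moebius (e / d) : ℤ) : ℝ) * (d : ℝ)| ≤ (d : ℝ) := by
    intro d _
    rw [abs_mul, Nat.abs_cast]
    have h2 : |((ArithmeticFunction.moebius (e / d) : ℤ) : ℝ)| ≤ 1 := by
      have := ArithmeticFunction.abs_moebius_le_one (n := e / d)
      exact_mod_cast this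
    have h3 : (0 : ℝ) ≤ d := Nat.cast_nonneg d
    nlinarith
  refine (sum_le_sum h1).trans (sum_le_sum_of_subset_of_nonneg ?_ fun _ _ _ => Nat.cast_nonneg _)
  intro d hd
  rw [mem_filter] at hd
  exact Nat.mem_divisors.2 ⟨hd.2, hh⟩

theorem W1_nonneg (X α β : ℝ) (e : ℕ) : 0 ≤ W1 X α β e := by
  unfold W1
  positivity

theorem W2_nonneg (X γ₁ γ₂ δ₁ δ₂ : ℝ) (e : ℕ) : 0 ≤ W2 X γ₁ γ₂ δ₁ δ₂ e := by
  unfold W2
  refine sum_nonneg fun u _ => sum_nonneg fun v _ => ?_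
  split_ifs
  · positivity
  · exact le_rfl

theorem mem_In {X α β : ℝ} {a : ℕ} (h : a ∈ In X α β) : 1 ≤ a ∧ a ≤ ⌊X ^ β⌋₊ := by
  unfold In at h
  rw [mem_Ioc] at h
  exact ⟨by omega, h.2⟩

/-- the sum over the divisors as a sum over a range -/
theorem div_range (M E : ℕ) (hM : 1 ≤ M) (hME : M ≤ E) (g : ℕ → ℝ) :
    ∑ e ∈ M.divisors, g e = ∑ e ∈ range E, if (e + 1) ∣ M then g (e + 1) else 0 := by
  rw [← sum_filter]
  have h1 : M.divisors = ((range E).filter (fun e => (e + 1) ∣ M)).image (fun e => e + 1) := by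
    ext d
    rw [Nat.mem_divisors, mem_image]
    constructor
    · rintro ⟨h1, -⟩
      have h2 := Nat.le_of_dvd (by omega) h1
      have h3 : 0 < d := Nat.pos_of_dvd_of_pos h1 (by omega)
      exact ⟨d - 1, by rw [mem_filter, mem_range, Nat.sub_add_cancel h3]; exact ⟨by omega, h1⟩,
        Nat.sub_add_cancel h3⟩
    · rintro ⟨e, he, rfl⟩
      rw [mem_filter] at he
      exact ⟨he.2, by omega⟩
  rw [h1, sum_image (fun x _ y _ h => Nat.add_right_cancel h)]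

/-- the interchange of the sums -/
theorem inter (hS2 : S2) (s : ℤ) (hs : s ≠ 0) (X α₁ α₂ β₁ β₂ γ₁ γ₂ δ₁ δ₂ : ℝ) :
    ∑ a ∈ In X α₁ α₂, ∑ b ∈ In X β₁ β₂, ∑ u ∈ In X γ₁ γ₂, ∑ v ∈ In X δ₁ δ₂,
      rho s a (u * v) / ((a : ℝ) * b) =
    W1 X β₁ β₂ 1 * ∑' e : ℕ, ram (e + 1) s.natAbs *
      (W1 X α₁ α₂ (e + 1) * W2 X γ₁ γ₂ δ₁ δ₂ (e + 1)) := by
  have hW : W1 X β₁ β₂ 1 = ∑ b ∈ In X β₁ β₂, 1 / (b : ℝ) := by
    unfold W1
    refine sum_congr rfl fun b _ => ?_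
    rw [Nat.gcd_one_right, Nat.cast_one, one_mul]
  have h1 : ∑ a ∈ In X α₁ α₂, ∑ b ∈ In X β₁ β₂, ∑ u ∈ In X γ₁ γ₂, ∑ v ∈ In X δ₁ δ₂,
      rho s a (u * v) / ((a : ℝ) * b) = (∑ b ∈ In X β₁ β₂, 1 / (b : ℝ)) *
      ∑ a ∈ In X α₁ α₂, ∑ u ∈ In X γ₁ γ₂, ∑ v ∈ In X δ₁ δ₂, rho s a (u * v) / (a : ℝ) := by
    rw [sum_comm, sum_mul]
    refine sum_congr rfl fun b _ => ?_
    simp only [mul_sum]
    refine sum_congr rfl fun a _ => sum_congr rfl fun u _ => sum_congr rfl fun v _ => ?_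
    ring
  rw [h1, hW]
  refine congrArg (fun t => (∑ b ∈ In X β₁ β₂, 1 / (b : ℝ)) * t) ?_
  set E : ℕ := ⌊X ^ γ₂⌋₊ * ⌊X ^ δ₂⌋₊ with hE
  have huv : ∀ u ∈ In X γ₁ γ₂, ∀ v ∈ In X δ₁ δ₂, 1 ≤ u * v ∧ u * v ≤ E := by
    intro u hu v hv
    have hu' := mem_In hu
    have hv' := mem_In hv
    exact ⟨Nat.mul_pos hu'.1 hv'.1, Nat.mul_le_mul hu'.2 hv'.2⟩
  rw [tsum_eq_sum (s := range E)]
  · have h2 : ∀ e ∈ range E, ram (e + 1) s.natAbs *
        (W1 X α₁ α₂ (e + 1) * W2 X γ₁ γ₂ δ₁ δ₂ (e + 1)) =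
        ∑ a ∈ In X α₁ α₂, ∑ u ∈ In X γ₁ γ₂, ∑ v ∈ In X δ₁ δ₂, ram (e + 1) s.natAbs *
          (((Nat.gcd a (e + 1) : ℝ) / (((e + 1 : ℕ) : ℝ) * a)) *
            (if (e + 1) ∣ u * v then 1 / ((u : ℝ) * v) else 0)) := by
      intro e _
      unfold W1 W2
      rw [sum_mul, mul_sum]
      refine sum_congr rfl fun a _ => ?_
      rw [mul_sum, mul_sum]
      refine sum_congr rfl fun u _ => ?_
      rw [mul_sum, mul_sum]
    rw [sum_congr rfl h2, sum_comm (s := range E)]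
    refine sum_congr rfl fun a ha => ?_
    rw [sum_comm (s := range E)]
    refine sum_congr rfl fun u hu => ?_
    rw [sum_comm (s := range E)]
    refine sum_congr rfl fun v hv => ?_
    have ha' := mem_In ha
    have hM := huv u hu v hv
    have hu' := mem_In hu
    have hv' := mem_In hv
    rw [hS2 s a (u * v) hs ha'.1 hM.1, div_range (u * v) E hM.1 hM.2, mul_sum, sum_div]
    refine sum_congr rfl fun e _ => ?_
    split_ifs
    · push_cast
      have h3 : (0 : ℝ) < a := by exact_mod_cast ha'.1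
      have h4 : (0 : ℝ) < u := by exact_mod_cast hu'.1
      have h5 : (0 : ℝ) < v := by exact_mod_cast hv'.1
      have h6 : (0 : ℝ) < (e : ℝ) + 1 := by positivity
      field_simp
    · ring
  · intro e he
    rw [mem_range, not_lt] at he
    have h2 : W2 X γ₁ γ₂ δ₁ δ₂ (e + 1) = 0 := by
      unfold W2
      refine sum_eq_zero fun u hu => sum_eq_zero fun v hv => ?_
      have hM := huv u hu v hv
      rw [if_neg]
      intro hd
      have := Nat.le_of_dvd (by omega) hd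
      omega
    rw [h2, mul_zero, mul_zero]

/-- **TD5.** -/
theorem s5 : S2 → S3 → S4 → S5 := by
  intro hS2 hS3 hS4 s hs α₁ α₂ β₁ β₂ γ₁ γ₂ δ₁ δ₂ hα hα' hβ hβ' hγ hγ' hδ hδ'
  obtain ⟨hA1, CA, hCA, hA2⟩ := hS3 α₁ α₂ hα hα'
  obtain ⟨hB1, -⟩ := hS3 β₁ β₂ hβ hβ'
  obtain ⟨hC1, CC, hCC, hC2⟩ := hS4 γ₁ γ₂ δ₁ δ₂ hγ hγ' hδ hδ'
  have hPr : Pr 2 1 = 1 := by
    unfold Pr
    rw [filter_true_of_mem (fun v _ => one_dvd _), Fintype.card_piFinset]
    simp
  have hb : Tendsto (fun X : ℝ => W1 X β₁ β₂ 1 / Real.log X) atTop (𝓝 (β₂ - β₁)) := by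
    have h1 := hB1 1 le_rfl
    rwa [hPr, mul_one] at h1
  have hs0 : s.natAbs ≠ 0 := Int.natAbs_ne_zero.2 hs
  have hmain : Tendsto (fun X : ℝ => ∑' e : ℕ, ram (e + 1) s.natAbs *
      ((W1 X α₁ α₂ (e + 1) / Real.log X) * (W2 X γ₁ γ₂ δ₁ δ₂ (e + 1) / Real.log X ^ 2))) atTop
      (𝓝 (∑' e : ℕ, ram (e + 1) s.natAbs * (((α₂ - α₁) * Pr 2 (e + 1)) *
        ((γ₂ - γ₁) * (δ₂ - δ₁) * Pr 2 (e + 1))))) := by
    refine tendsto_tsum_of_dominated_convergence
      (bound := fun e => (∑ d ∈ s.natAbs.divisors, (d : ℝ)) * (CA * CC) *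
        ((((e + 1).divisors.card : ℝ) / ((e + 1 : ℕ) : ℝ)) *
          (((e + 1).divisors.card : ℝ) / ((e + 1 : ℕ) : ℝ))))
      (tau_summable.mul_left _) (fun e => ?_) ?_
    · exact ((hA1 (e + 1) (by omega)).mul (hC1 (e + 1) (by omega))).const_mul _
    · filter_upwards [eventually_ge_atTop (2 : ℝ)] with X hX e
      have hlog : 0 < Real.log X := Real.log_pos (by linarith)
      have h1 := hA2 X hX (e + 1) (by omega)
      have h2 := hC2 X hX (e + 1) (by omega)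
      have h3 : W1 X α₁ α₂ (e + 1) / Real.log X ≤
          CA * (((e + 1).divisors.card : ℝ) / ((e + 1 : ℕ) : ℝ)) := by
        rw [div_le_iff₀ hlog]
        exact h1
      have h4 : W2 X γ₁ γ₂ δ₁ δ₂ (e + 1) / Real.log X ^ 2 ≤
          CC * (((e + 1).divisors.card : ℝ) / ((e + 1 : ℕ) : ℝ)) := by
        rw [div_le_iff₀ (by positivity)]
        exact h2
      have h5 : 0 ≤ W1 X α₁ α₂ (e + 1) / Real.log X := div_nonneg (W1_nonneg _ _ _ _) hlog.le
      have h6 : 0 ≤ W2 X γ₁ γ₂ δ₁ δ₂ (e + 1) / Real.log X ^ 2 :=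
        div_nonneg (W2_nonneg _ _ _ _ _ _) (by positivity)
      rw [Real.norm_eq_abs, abs_mul, abs_of_nonneg (mul_nonneg h5 h6), mul_assoc]
      refine mul_le_mul (ram_le (e + 1) s.natAbs hs0) ?_ (mul_nonneg h5 h6)
        (sum_nonneg fun _ _ => Nat.cast_nonneg _)
      calc (W1 X α₁ α₂ (e + 1) / Real.log X) * (W2 X γ₁ γ₂ δ₁ δ₂ (e + 1) / Real.log X ^ 2)
          ≤ (CA * (((e + 1).divisors.card : ℝ) / ((e + 1 : ℕ) : ℝ))) *
            (CC * (((e + 1).divisors.card : ℝ) / ((e + 1 : ℕ) : ℝ))) :=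
            mul_le_mul h3 h4 h6 (by positivity)
        _ = _ := by ring
  have hlim : (∑' e : ℕ, ram (e + 1) s.natAbs * (((α₂ - α₁) * Pr 2 (e + 1)) *
        ((γ₂ - γ₁) * (δ₂ - δ₁) * Pr 2 (e + 1)))) =
      (α₂ - α₁) * ((γ₂ - γ₁) * (δ₂ - δ₁)) * SS 3 s.natAbs := by
    unfold SS
    rw [← tsum_mul_left]
    refine tsum_congr fun e => ?_
    ring
  rw [hlim] at hmain
  have h1 := hb.mul hmain
  have h2 : (β₂ - β₁) * ((α₂ - α₁) * ((γ₂ - γ₁) * (δ₂ - δ₁)) * SS 3 s.natAbs) =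
      (α₂ - α₁) * (β₂ - β₁) * ((γ₂ - γ₁) * (δ₂ - δ₁)) * SS 3 s.natAbs := by ring
  rw [h2] at h1
  refine h1.congr' ?_
  filter_upwards [eventually_ge_atTop (2 : ℝ)] with X hX
  have hlog : 0 < Real.log X := Real.log_pos (by linarith)
  have h3 : (∑' e : ℕ, ram (e + 1) s.natAbs *
      ((W1 X α₁ α₂ (e + 1) / Real.log X) * (W2 X γ₁ γ₂ δ₁ δ₂ (e + 1) / Real.log X ^ 2))) =
      (∑' e : ℕ, ram (e + 1) s.natAbs * (W1 X α₁ α₂ (e + 1) * W2 X γ₁ γ₂ δ₁ δ₂ (e + 1))) /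
        Real.log X ^ 3 := by
    rw [← tsum_div_const]
    refine tsum_congr fun e => ?_
    field_simp
  rw [inter hS2 s hs, h3]
  field_simp

end Pool.Agent.H618.TD

namespace Pool.Agent.H592.TD

/-- **TD5.** -/
theorem s5 : S2 → S3 → S4 → S5 := Pool.Agent.H618.TD.s5

end Pool.Agent.H592.TD
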